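import Pool.Agent.Y360.MC.McKay

/-!
# McKay bijections with degrees congruent up to sign and numbers of homomorphisms

For a finite group `H` and a prime `p` the numbers of homomorphisms from the surface groups of
genus `1, 2, 3, …` to `H` determine integers `f d n` (the slopes). For `P ∈ Syl_p(G)` the
question of the problem for `(G, p, P)` has a positive answer if and only if the slopes
`f a n` of `G` and `g a n` of `N_G(P)`, where `|G|_p = p^a`, satisfy
`f a n ≡ g a n (mod p^(k+1))` whenever `p^k ∣ n`.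
-/

namespace Pool.Agent.Results.MP_5ecade_al.SurfaceCongruences

open Pool.Agent.Y360.MC

theorem result :
    (∀ (p : ℕ) [Fact p.Prime] (H : Type) [Group H] [Finite H],
      ∃ f : ℕ → ℕ → ℤ, IsSlopes p H f ∧ (∀ f' : ℕ → ℕ → ℤ, IsSlopes p H f' → f' = f) ∧
        (Nat.card (IrrPrime p H) : ℤ) = f ((Nat.card H).factorization p) 0) ∧
    (∀ (p : ℕ) [Fact p.Prime] (G : Type) [Group G] [Finite G] (P : Sylow p G)
      (f g : ℕ → ℕ → ℤ), IsSlopes p G f → IsSlopes p (Subgroup.normalizer (P : Set G)) g →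
      (HasBijection p G P ↔ ∀ k n : ℕ, p ^ k ∣ n → (p : ℤ) ^ (k + 1) ∣
        f ((Nat.card G).factorization p) n - g ((Nat.card G).factorization p) n) ∧
      (∀ K : ℕ, Nat.card G < p ^ (K + 1) →
        (HasBijection p G P ↔ ∀ m : ℕ, 2 * m + 2 ≤ p → (p : ℤ) ^ (K + 1) ∣
          f ((Nat.card G).factorization p) (m * p ^ K) -
            g ((Nat.card G).factorization p) (m * p ^ K)))) := by
  refine ⟨?_, ?_⟩
  · intro p _ H _ _
    letI : Fintype H := Fintype.ofFinite H
    exact ⟨_, isSlopes_slope, fun f' hf' => isSlopes_unique hf' isSlopes_slope,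
      card_IrrPrime isSlopes_slope⟩
  · intro p hp G _ _ P f g hf hg
    have hlarge : ∃ K : ℕ, Nat.card G < p ^ (K + 1) :=
      ⟨Nat.card G, (Nat.lt_pow_self hp.out.one_lt).trans_le
        (Nat.pow_le_pow_right hp.out.pos (Nat.le_succ _))⟩
    refine ⟨⟨fun h k n hn => dvd_of_hasBijection P hf hg h hn, fun h => ?_⟩,
      fun K hK => ⟨fun h m _ => dvd_of_hasBijection P hf hg h (Dvd.intro_left m rfl),
        fun h => hasBijection_of_dvd P hf hg K hK h⟩⟩
    obtain ⟨K, hK⟩ := hlarge
    exact hasBijection_of_dvd P hf hg K hK fun m _ => h K _ (Dvd.intro_left m rfl)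

end Pool.Agent.Results.MP_5ecade_al.SurfaceCongruences
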